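import Pool.Agent.Helper51.LT.St
import Pool.Agent.Helper51.LT.St2

/-!
Module LOF of project LT (MP_d6acc2_an) and its twin for `α < -1`.
-/

set_option autoImplicit false

namespace Pool.Agent.Helper23.LT

open Complex MeasureTheory Set Metric Filter Topology
open scoped Real ENNReal
open Pool.Agent.Helper60.Rel (LH tc Admissible ClassS LogData om th)
open Pool.Agent.Helper51.LT

theorem rob_and {p q : (ℂ → ℂ) → Prop} {f : ℂ → ℂ} (hp : Rob p f) (hq : Rob q f) :
    Rob (fun F => p F ∧ q F) f := by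
  obtain ⟨η₁, h1, r₁, h2, h3, h4⟩ := hp
  obtain ⟨η₂, k1, r₂, k2, k3, k4⟩ := hq
  refine ⟨min η₁ η₂, lt_min h1 k1, max r₁ r₂, le_trans h2 (le_max_left _ _), max_lt h3 k3, ?_⟩
  intro F hF hc
  refine ⟨h4 F hF ?_, k4 F hF ?_⟩
  · intro z hz
    exact le_trans (hc z (le_trans hz (le_max_left _ _))) (min_le_left _ _)
  · intro z hz
    exact le_trans (hc z (le_trans hz (le_max_right _ _))) (min_le_right _ _)

theorem lof_core (hGH : StGH) (hInj : StInj) (hTcd : StTcd) (α : ℝ) (N : ℕ) (hN : 1 ≤ N)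
    (step : ∀ f : ℂ → ℂ, PL N f → ∀ (η r : ℝ) (j : ℕ), 0 < η → r < 1 →
      ∃ f₁, PL N f₁ ∧ (∀ z : ℂ, ‖z‖ ≤ r → ‖f₁ z - f z‖ ≤ η) ∧ Rob (QL α j) f₁) :
    ∃ f : ℂ → ℂ, ClassS f ∧ Sy N f ∧ ∀ j : ℕ, QL α j f := by
  have hdiff : ∀ f, PL N f → DifferentiableOn ℂ f (ball 0 1) := by
    rintro f ⟨⟨R, hR, hf, -⟩, -, -⟩
    exact hf.mono (ball_subset_ball hR.le)
  have hid : PL N (fun z : ℂ => z) := by
    refine ⟨⟨2, by norm_num, differentiableOn_id, fun x _ y _ h => h⟩, rfl, ?_⟩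
    intro ω z _ _
    rfl
  have hrho : ∀ j : ℕ, 0 ≤ 1 - 1 / ((j : ℝ) + 2) ∧ 1 - 1 / ((j : ℝ) + 2) < 1 := by
    intro j
    have hj : (0 : ℝ) ≤ j := Nat.cast_nonneg j
    have h2 : 0 < 1 / ((j : ℝ) + 2) := by positivity
    have h3 : 1 / ((j : ℝ) + 2) ≤ 1 := by
      rw [div_le_one (by positivity)]
      linarith
    constructor <;> linarith
  obtain ⟨F, hF, hq, hclose, s, hs, hlim⟩ := hGH (PL N)
    (fun j F => QL α j F ∧ InjOn F (closedBall 0 (1 - 1 / ((j : ℝ) + 2)))) (fun z : ℂ => z)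
    hdiff hid (by
      intro f hf η r j hη hr
      obtain ⟨f₁, h1, h2, h3⟩ := step f hf η r j hη hr
      refine ⟨f₁, h1, h2, rob_and h3 ?_⟩
      obtain ⟨⟨R, hR, hU⟩, -, -⟩ := h1
      exact hInj f₁ R _ hR hU (hrho j).1 (hrho j).2) (1 / 4) (by norm_num)
  have hinj : InjOn F (ball 0 1) := by
    intro z hz w hw h
    rw [mem_ball_zero_iff] at hz hw
    have hm : 0 < 1 - max ‖z‖ ‖w‖ := by
      have := max_lt hz hw
      linarith
    obtain ⟨j, hj⟩ := exists_nat_one_div_lt hm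
    have hj2 : 1 / ((j : ℝ) + 2) ≤ 1 / ((j : ℝ) + 1) := by
      apply one_div_le_one_div_of_le
      · positivity
      · linarith
    refine (hq j).2 ?_ ?_ h
    · rw [mem_closedBall_zero_iff]
      have := le_max_left ‖z‖ ‖w‖
      linarith
    · rw [mem_closedBall_zero_iff]
      have := le_max_right ‖z‖ ‖w‖
      linarith
  have hF0 : F 0 = 0 := by
    have h1 := hlim 0 (by simp)
    have h2 : (fun k => s k 0) = fun _ => (0 : ℂ) := by
      funext k
      exact (hs k).2.1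
    rw [h2] at h1
    exact (tendsto_nhds_unique h1 tendsto_const_nhds)
  have hFsy : Sy N F := by
    intro ω z hω hz
    have hn : ‖ω‖ = 1 := by
      have h1 : ‖ω‖ ^ N = 1 := by
        rw [← norm_pow, hω, norm_one]
      exact (pow_eq_one_iff_of_nonneg (norm_nonneg ω) (by omega)).1 h1
    have hz2 : ω * z ∈ ball (0 : ℂ) 1 := by
      rw [mem_ball_zero_iff] at hz ⊢
      rw [norm_mul, hn, one_mul]
      exact hz
    have h1 := hlim _ hz2
    have h2 : (fun k => s k (ω * z)) = fun k => ω * s k z := by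
      funext k
      exact (hs k).2.2 ω z hω hz
    rw [h2] at h1
    exact tendsto_nhds_unique h1 ((hlim z hz).const_mul ω)
  have hFd : DifferentiableAt ℂ F 0 :=
    hF.differentiableAt (isOpen_ball.mem_nhds (by simp))
  have ha : ‖deriv F 0 - 1‖ ≤ 1 / 2 := by
    have hd : DiffContOnCl ℂ (fun z => F z - z) (ball 0 (1 / 2)) := by
      apply DifferentiableOn.diffContOnCl
      rw [closure_ball _ (by norm_num)]
      exact (hF.mono (closedBall_subset_ball (by norm_num))).sub differentiableOn_id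
    have h := Complex.norm_deriv_le_of_forall_mem_sphere_norm_le (by norm_num : (0 : ℝ) < 1 / 2) hd
      (C := 1 / 4) (by
        intro z hz
        refine hclose z ?_
        rw [mem_sphere_zero_iff_norm] at hz
        exact hz.le)
    have h2 : deriv (fun z => F z - z) 0 = deriv F 0 - 1 := by
      have := (hFd.hasDerivAt.sub (hasDerivAt_id' (0 : ℂ))).deriv
      exact this
    rw [h2] at h
    linarith
  set a := deriv F 0 with hadef
  have ha2 : ‖a‖ ≤ 2 := by
    have h1 : ‖a‖ ≤ ‖a - 1‖ + ‖(1 : ℂ)‖ := by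
      have := norm_add_le (a - 1) 1
      simpa using this
    rw [norm_one] at h1
    linarith
  have ha0 : a ≠ 0 := by
    intro h
    rw [h] at ha
    norm_num at ha
  have hapos : 0 < ‖a‖ := norm_pos_iff.2 ha0
  refine ⟨fun z => a⁻¹ * F z, ⟨?_, ?_, ?_, ?_⟩, ?_, ?_⟩
  · exact hF.const_mul _
  · intro z hz w hw h
    exact hinj hz hw (mul_left_cancel₀ (inv_ne_zero ha0) h)
  · simp [hF0]
  · have := (hFd.hasDerivAt.const_mul a⁻¹).deriv
    rw [this, ← hadef]
    exact inv_mul_cancel₀ ha0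
  · intro ω z hω hz
    show a⁻¹ * F (ω * z) = ω * (a⁻¹ * F z)
    rw [hFsy ω z hω hz]
    ring
  · intro j
    obtain ⟨T, hT, hlt⟩ := (hq (2 * j)).1
    refine ⟨T, by omega, ?_⟩
    rw [hTcd.2.2 F a⁻¹ T hF, norm_mul, norm_inv]
    have hT0 : (0 : ℝ) ≤ (j : ℝ) * (T : ℝ) ^ α := by positivity
    push_cast at hlt
    have h3 : (j : ℝ) * (T : ℝ) ^ α * ‖a‖ < ‖tc F T‖ := by
      have : (j : ℝ) * (T : ℝ) ^ α * ‖a‖ ≤ (j : ℝ) * (T : ℝ) ^ α * 2 :=
        mul_le_mul_of_nonneg_left ha2 hT0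
      nlinarith
    rw [inv_mul_eq_div, lt_div_iff₀ hapos]
    exact h3

theorem hLof (hGH : StGH) (hStl : StStl) (hInj : StInj) (hTcd : StTcd) : StLof := by
  intro α γ N hN hγ hαγ hHU
  exact lof_core hGH hInj hTcd α N hN (hStl α γ N hN hγ hαγ hHU)

theorem hLf0 (hGH : StGH) (hSt0 : StSt0) (hInj : StInj) (hTcd : StTcd) : StLf0 := by
  intro α N hN hα
  exact lof_core hGH hInj hTcd α N hN (hSt0 α N hN hα)

end Pool.Agent.Helper23.LT
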